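import Pool.Agent.H122.Z987.DecCore

/-! Decoupling inequality with a Moebius numerator (task FL-DEC2), core. -/

set_option autoImplicit false

open scoped ENNReal
open MeasureTheory Set

namespace Pool.Agent.H215.FL

open Pool.Agent.H122.Z987 (w w_meas w_lt_top fin_int)

/-- short intervals carry a small part of the weight -/
theorem small (s D ε : ℝ) (hs : 0 < s) (hs1 : s < 1) (hD : 0 < D) (hε : 0 < ε) :
    ∃ r : ℝ, 0 < r ∧ ∀ (μ : Measure ℝ) [IsProbabilityMeasure μ], (∀ᵐ v ∂μ, |v| ≤ 1) →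
      (∀ A : Set ℝ, MeasurableSet A → μ A ≤ ENNReal.ofReal D * volume A) →
      ∀ (a : ℝ) (β : ℂ), β.im ≠ 0 →
        ∫⁻ v in {v : ℝ | |v - a| < r}, w s β v ∂μ ≤ ENNReal.ofReal ε * ∫⁻ v, w s β v ∂μ := by
  -- absolute continuity of the integral
  obtain ⟨δ, hδ0, hδ⟩ := exists_pos_setLIntegral_lt_of_measure_lt (fin_int s hs1)
    (ε := ENNReal.ofReal (ε / (3 * D))) (by
      rw [Ne, ENNReal.ofReal_eq_zero, not_le]; positivity)
  obtain ⟨r1, hr1, hr1'⟩ : ∃ r1 : ℝ, 0 < r1 ∧ ENNReal.ofReal (2 * r1) < δ := by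
    rcases eq_or_ne δ ∞ with h | h
    · exact ⟨1, one_pos, by rw [h]; exact ENNReal.ofReal_lt_top⟩
    · have h2 : 0 < δ.toReal := ENNReal.toReal_pos hδ0.ne' h
      refine ⟨δ.toReal / 4, by positivity, ?_⟩
      rw [ENNReal.ofReal_lt_iff_lt_toReal (by positivity) h]
      linarith
  set r : ℝ := min r1 (ε / (6 * D)) with hr
  have hr0 : 0 < r := lt_min hr1 (by positivity)
  refine ⟨r, hr0, ?_⟩
  intro μ _ hμ hμD a β hβ
  set B : Set ℝ := {v : ℝ | |v - a| < r} with hB
  have hBm : MeasurableSet B := measurableSet_lt (by fun_prop) (by fun_prop)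
  have hBvol : volume B = ENNReal.ofReal (2 * r) := by
    have : B = Metric.ball a r := by
      ext v; simp [hB, Real.dist_eq]
    rw [this, Real.volume_ball]
  have hle : μ ≤ ENNReal.ofReal D • volume := by
    rw [Measure.le_iff]
    intro A hA
    simpa using hμD A hA
  by_cases hb : ‖β‖ ≤ 2
  · -- `W ≥ 1/3`
    have hW : ENNReal.ofReal (1 / 3) ≤ ∫⁻ v, w s β v ∂μ := by
      have h1 : ∫⁻ _v : ℝ, ENNReal.ofReal (1 / 3) ∂μ ≤ ∫⁻ v, w s β v ∂μ := by
        refine lintegral_mono_ae ?_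
        filter_upwards [hμ] with v hv
        refine ENNReal.ofReal_le_ofReal ?_
        have h2 : ‖(v : ℂ) - β‖ ≤ 3 := by
          calc ‖(v : ℂ) - β‖ ≤ ‖(v : ℂ)‖ + ‖β‖ := norm_sub_le _ _
            _ ≤ 1 + 2 := by
                rw [Complex.norm_real]
                exact add_le_add hv hb
            _ = 3 := by norm_num
        have h3 : 0 < ‖(v : ℂ) - β‖ := by
          rw [norm_pos_iff]
          intro h
          apply hβ
          have := congrArg Complex.im h
          simpa using this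
        calc (1 / 3 : ℝ) = 3 ^ (-1 : ℝ) := by
              rw [Real.rpow_neg_one]; norm_num
          _ ≤ 3 ^ (-s) := Real.rpow_le_rpow_of_exponent_le (by norm_num) (by linarith)
          _ ≤ ‖(v : ℂ) - β‖ ^ (-s) := Real.rpow_le_rpow_of_nonpos h3 h2 (by linarith)
      rw [lintegral_const, measure_univ, mul_one] at h1
      exact h1
    -- `W(B) ≤ ε/3`
    have hWB : ∫⁻ v in B, w s β v ∂μ ≤ ENNReal.ofReal (ε / 3) := by
      set b := β.re with hbre
      have hbr : |b| ≤ 2 := (Complex.abs_re_le_norm β).trans hb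
      set C : Set ℝ := (fun x => x + b) ⁻¹' B with hC
      have hCvol : volume C = ENNReal.ofReal (2 * r) := by
        rw [hC, measure_preimage_add_right, hBvol]
      have hCm : MeasurableSet C := hBm.preimage (by fun_prop)
      have hbound : ∫⁻ x in C, ENNReal.ofReal (|x| ^ (-s)) ∂(volume.restrict (Icc (-3 : ℝ) 3)) <
          ENNReal.ofReal (ε / (3 * D)) := by
        refine hδ C ?_
        refine lt_of_le_of_lt (Measure.restrict_apply_le _ _) ?_
        rw [hCvol]
        refine lt_of_le_of_lt (ENNReal.ofReal_le_ofReal ?_) hr1'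
        have := min_le_left r1 (ε / (6 * D))
        linarith
      have hmono : ∫⁻ v in B, w s β v ∂μ ≤
          ∫⁻ v in B, (Icc (-3 + b) (3 + b)).indicator
            (fun v => ENNReal.ofReal (|v - b| ^ (-s))) v ∂μ := by
        refine lintegral_mono_ae ?_
        refine ae_restrict_of_ae ?_
        have hbnull : ∀ᵐ v ∂μ, v ≠ b := by
          rw [ae_iff]
          have h0 : {a : ℝ | ¬ a ≠ b} = {b} := by ext; simp
          rw [h0]
          have := hμD {b} (measurableSet_singleton b)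
          simpa using this
        filter_upwards [hμ, hbnull] with v hv hvb
        have hmem : v ∈ Icc (-3 + b) (3 + b) := by
          rw [abs_le] at hv hbr
          constructor <;> linarith [hv.1, hv.2, hbr.1, hbr.2]
        rw [indicator_of_mem hmem]
        refine ENNReal.ofReal_le_ofReal ?_
        refine Real.rpow_le_rpow_of_nonpos (abs_pos.mpr (sub_ne_zero.mpr hvb)) ?_ (by linarith)
        have := Complex.abs_re_le_norm ((v : ℂ) - β)
        simpa using this
      calc ∫⁻ v in B, w s β v ∂μ ≤ ∫⁻ v in B, (Icc (-3 + b) (3 + b)).indicator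
            (fun v => ENNReal.ofReal (|v - b| ^ (-s))) v ∂μ := hmono
        _ = ∫⁻ v, B.indicator ((Icc (-3 + b) (3 + b)).indicator
            (fun v => ENNReal.ofReal (|v - b| ^ (-s)))) v ∂μ := (lintegral_indicator hBm _).symm
        _ ≤ ∫⁻ v, B.indicator ((Icc (-3 + b) (3 + b)).indicator
            (fun v => ENNReal.ofReal (|v - b| ^ (-s)))) v ∂(ENNReal.ofReal D • volume) :=
              lintegral_mono' hle le_rfl
        _ = ENNReal.ofReal D * ∫⁻ v, B.indicator ((Icc (-3 + b) (3 + b)).indicator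
            (fun v => ENNReal.ofReal (|v - b| ^ (-s)))) v := by
              rw [lintegral_smul_measure]; rfl
        _ = ENNReal.ofReal D * ∫⁻ x, B.indicator ((Icc (-3 + b) (3 + b)).indicator
            (fun v => ENNReal.ofReal (|v - b| ^ (-s)))) (x + b) := by
              rw [lintegral_add_right_eq_self]
        _ = ENNReal.ofReal D *
            ∫⁻ x in C, ENNReal.ofReal (|x| ^ (-s)) ∂(volume.restrict (Icc (-3 : ℝ) 3)) := by
              congr 1
              rw [← lintegral_indicator hCm, ← lintegral_indicator measurableSet_Icc]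
              refine lintegral_congr ?_
              intro x
              by_cases hx1 : x ∈ C
              · have hx1' : x + b ∈ B := hx1
                by_cases hx2 : x ∈ Icc (-3 : ℝ) 3
                · have hx2' : x + b ∈ Icc (-3 + b) (3 + b) := by
                    constructor <;> linarith [hx2.1, hx2.2]
                  rw [indicator_of_mem hx1', indicator_of_mem hx2', indicator_of_mem hx2,
                    indicator_of_mem hx1]
                  simp
                · have hx2' : x + b ∉ Icc (-3 + b) (3 + b) := by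
                    intro h
                    apply hx2
                    constructor <;> linarith [h.1, h.2]
                  rw [indicator_of_mem hx1', indicator_of_notMem hx2', indicator_of_notMem hx2]
              · have hx1' : x + b ∉ B := hx1
                rw [indicator_of_notMem hx1']
                by_cases hx2 : x ∈ Icc (-3 : ℝ) 3
                · rw [indicator_of_mem hx2, indicator_of_notMem hx1]
                · rw [indicator_of_notMem hx2]
        _ ≤ ENNReal.ofReal D * ENNReal.ofReal (ε / (3 * D)) := by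
              gcongr
        _ = ENNReal.ofReal (ε / 3) := by
              rw [← ENNReal.ofReal_mul hD.le]
              congr 1
              field_simp
    calc ∫⁻ v in B, w s β v ∂μ ≤ ENNReal.ofReal (ε / 3) := hWB
      _ = ENNReal.ofReal ε * ENNReal.ofReal (1 / 3) := by
          rw [← ENNReal.ofReal_mul hε.le]
          congr 1
          ring
      _ ≤ _ := by gcongr
  · push Not at hb
    have hW : ENNReal.ofReal ((3 * ‖β‖ / 2) ^ (-s)) ≤ ∫⁻ v, w s β v ∂μ := by
      have h1 : ∫⁻ _v : ℝ, ENNReal.ofReal ((3 * ‖β‖ / 2) ^ (-s)) ∂μ ≤ ∫⁻ v, w s β v ∂μ := by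
        refine lintegral_mono_ae ?_
        filter_upwards [hμ] with v hv
        refine ENNReal.ofReal_le_ofReal ?_
        have h2 : ‖(v : ℂ) - β‖ ≤ 3 * ‖β‖ / 2 := by
          calc ‖(v : ℂ) - β‖ ≤ ‖(v : ℂ)‖ + ‖β‖ := norm_sub_le _ _
            _ ≤ 1 + ‖β‖ := by
                rw [Complex.norm_real]
                exact add_le_add hv le_rfl
            _ ≤ 3 * ‖β‖ / 2 := by linarith
        have h3 : 0 < ‖(v : ℂ) - β‖ := by
          rw [norm_pos_iff]
          intro h
          apply hβ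
          have := congrArg Complex.im h
          simpa using this
        exact Real.rpow_le_rpow_of_nonpos h3 h2 (by linarith)
      rw [lintegral_const, measure_univ, mul_one] at h1
      exact h1
    have hWB : ∫⁻ v in B, w s β v ∂μ ≤ ENNReal.ofReal ((‖β‖ / 2) ^ (-s)) * μ B := by
      have h1 : ∫⁻ v in B, w s β v ∂μ ≤ ∫⁻ _v in B, ENNReal.ofReal ((‖β‖ / 2) ^ (-s)) ∂μ := by
        refine lintegral_mono_ae (ae_restrict_of_ae ?_)
        filter_upwards [hμ] with v hv
        refine ENNReal.ofReal_le_ofReal ?_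
        have h2 : ‖β‖ / 2 ≤ ‖(v : ℂ) - β‖ := by
          have h3 : ‖β‖ - ‖(v : ℂ)‖ ≤ ‖(v : ℂ) - β‖ := by
            rw [norm_sub_rev]
            exact norm_sub_norm_le _ _
          rw [Complex.norm_real] at h3
          have h4 : ‖v‖ ≤ 1 := hv
          linarith
        exact Real.rpow_le_rpow_of_nonpos (by positivity) h2 (by linarith)
      rw [setLIntegral_const] at h1
      exact h1
    have hμB : μ B ≤ ENNReal.ofReal (ε / 3) := by
      calc μ B ≤ ENNReal.ofReal D * volume B := hμD B hBm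
        _ = ENNReal.ofReal (D * (2 * r)) := by rw [hBvol, ← ENNReal.ofReal_mul hD.le]
        _ ≤ ENNReal.ofReal (ε / 3) := by
            refine ENNReal.ofReal_le_ofReal ?_
            have h1 : r ≤ ε / (6 * D) := min_le_right _ _
            calc D * (2 * r) ≤ D * (2 * (ε / (6 * D))) := by gcongr
              _ = ε / 3 := by field_simp; norm_num
    have hβ0 : 0 < ‖β‖ := by linarith
    calc ∫⁻ v in B, w s β v ∂μ
        ≤ ENNReal.ofReal ((‖β‖ / 2) ^ (-s)) * ENNReal.ofReal (ε / 3) := by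
          exact hWB.trans (by gcongr)
      _ = ENNReal.ofReal ε * ENNReal.ofReal ((‖β‖ / 2) ^ (-s) * (1 / 3)) := by
          rw [← ENNReal.ofReal_mul (by positivity), ← ENNReal.ofReal_mul hε.le]
          congr 1
          ring
      _ ≤ ENNReal.ofReal ε * ENNReal.ofReal ((3 * ‖β‖ / 2) ^ (-s)) := by
          gcongr
          have h1 : (3 * ‖β‖ / 2) ^ (-s) = 3 ^ (-s) * (‖β‖ / 2) ^ (-s) := by
            rw [← Real.mul_rpow (by norm_num) (by positivity)]
            congr 1
            ring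
          rw [h1, mul_comm]
          gcongr
          calc (1 / 3 : ℝ) = 3 ^ (-1 : ℝ) := by
                rw [Real.rpow_neg_one]; norm_num
            _ ≤ 3 ^ (-s) := Real.rpow_le_rpow_of_exponent_le (by norm_num) (by linarith)
      _ ≤ _ := by gcongr

/-- the weight with the numerator -/
noncomputable def ww (s : ℝ) (p q β : ℂ) (v : ℝ) : ℝ≥0∞ :=
  ENNReal.ofReal (‖p + q * (v : ℂ)‖ ^ s * ‖(v : ℂ) - β‖ ^ (-s))

theorem ww_meas (s : ℝ) (p q β : ℂ) : Measurable (ww s p q β) := by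
  unfold ww
  fun_prop

/-- bounds for the numerator -/
theorem num (p q : ℂ) : ∃ γ : ℝ, ∀ v : ℝ, |v| ≤ 1 → ‖p + q * (v : ℂ)‖ ≤ ‖p‖ + ‖q‖ ∧
    (‖p‖ + ‖q‖) / 3 * min 1 |v - γ| ≤ ‖p + q * (v : ℂ)‖ := by
  have hup : ∀ v : ℝ, |v| ≤ 1 → ‖p + q * (v : ℂ)‖ ≤ ‖p‖ + ‖q‖ := by
    intro v hv
    refine (norm_add_le _ _).trans ?_
    rw [norm_mul, Complex.norm_real, Real.norm_eq_abs]
    nlinarith [norm_nonneg q]
  by_cases h : ‖q‖ ≤ ‖p‖ / 2
  · refine ⟨0, fun v hv => ⟨hup v hv, ?_⟩⟩
    have h1 : ‖p‖ - ‖q‖ ≤ ‖p + q * (v : ℂ)‖ := by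
      have h2 : ‖p‖ - ‖q * (v : ℂ)‖ ≤ ‖p + q * (v : ℂ)‖ := by
        have h3 := norm_sub_norm_le p (-(q * (v : ℂ)))
        rw [norm_neg, sub_neg_eq_add] at h3
        exact h3
      rw [norm_mul, Complex.norm_real, Real.norm_eq_abs] at h2
      nlinarith [norm_nonneg q]
    have h4 : min 1 |v - 0| ≤ 1 := min_le_left _ _
    have h5 : (‖p‖ + ‖q‖) / 3 * min 1 |v - 0| ≤ (‖p‖ + ‖q‖) / 3 * 1 :=
      mul_le_mul_of_nonneg_left h4 (by positivity)
    linarith
  · rw [not_le] at h
    have hq : 0 < ‖q‖ := lt_of_le_of_lt (by positivity) h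
    have hq0 : q ≠ 0 := norm_pos_iff.1 hq
    refine ⟨(-(p / q)).re, fun v hv => ⟨hup v hv, ?_⟩⟩
    have e : p + q * (v : ℂ) = q * ((v : ℂ) - -(p / q)) := by
      field_simp
      ring
    have h1 : |v - (-(p / q)).re| ≤ ‖(v : ℂ) - -(p / q)‖ := by
      have := Complex.abs_re_le_norm ((v : ℂ) - -(p / q))
      rwa [Complex.sub_re, Complex.ofReal_re] at this
    have h2 : min 1 |v - (-(p / q)).re| ≤ ‖(v : ℂ) - -(p / q)‖ := (min_le_right _ _).trans h1
    rw [e, norm_mul]
    have h3 : 0 ≤ min 1 |v - (-(p / q)).re| := le_min zero_le_one (abs_nonneg _)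
    calc (‖p‖ + ‖q‖) / 3 * min 1 |v - (-(p / q)).re| ≤ ‖q‖ * min 1 |v - (-(p / q)).re| :=
          mul_le_mul_of_nonneg_right (by linarith) h3
      _ ≤ ‖q‖ * ‖(v : ℂ) - -(p / q)‖ := mul_le_mul_of_nonneg_left h2 (norm_nonneg _)

theorem dec2_core (s D : ℝ) (hs : 0 < s) (hs1 : s < 1) (hD : 0 < D) : ∃ c : ℝ, 0 < c ∧
    ∀ (μ : Measure ℝ) [IsProbabilityMeasure μ], (∀ᵐ v ∂μ, |v| ≤ 1) →
      (∀ A : Set ℝ, MeasurableSet A → μ A ≤ ENNReal.ofReal D * volume A) →
      ∀ α β p q : ℂ, β.im ≠ 0 →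
        ENNReal.ofReal c *
            ∫⁻ v : ℝ, ENNReal.ofReal (‖p + q * (v : ℂ)‖ ^ s * ‖(v : ℂ) - β‖ ^ (-s)) ∂μ ≤
          ∫⁻ v : ℝ, ENNReal.ofReal (‖(v : ℂ) - α‖ ^ s *
            (‖p + q * (v : ℂ)‖ ^ s * ‖(v : ℂ) - β‖ ^ (-s))) ∂μ := by
  obtain ⟨κ₀, hκ₀, hκ⟩ := small s D (1 / 2) hs hs1 hD (by norm_num)
  set κ : ℝ := min κ₀ 1 with hκdef
  have hκ0 : 0 < κ := lt_min hκ₀ one_pos
  have hκ1 : κ ≤ 1 := min_le_right _ _
  obtain ⟨r, hr0, hr⟩ := small s D ((κ / 3) ^ s / 4) hs hs1 hD (by positivity)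
  refine ⟨r ^ s / 2, by positivity, ?_⟩
  intro μ _ hμ hμD α β p q hβ
  obtain ⟨γ, hγ⟩ := num p q
  set M : ℝ := ‖p‖ + ‖q‖ with hM
  have hM0 : 0 ≤ M := by positivity
  -- the sets
  set B : Set ℝ := {v : ℝ | |v - α.re| < r} with hB
  have hBm : MeasurableSet B := measurableSet_lt (by fun_prop) (by fun_prop)
  set G : Set ℝ := {v : ℝ | |v - γ| < κ} with hG
  have hGm : MeasurableSet G := measurableSet_lt (by fun_prop) (by fun_prop)
  have htop := w_lt_top s hs β hβ μ
  -- the upper bound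
  have hup : ∀ A : Set ℝ, ∫⁻ v in A, ww s p q β v ∂μ ≤
      ENNReal.ofReal (M ^ s) * ∫⁻ v in A, w s β v ∂μ := by
    intro A
    rw [← lintegral_const_mul _ (w_meas s β)]
    refine lintegral_mono_ae (ae_restrict_of_ae ?_)
    filter_upwards [hμ] with v hv
    unfold ww w
    rw [← ENNReal.ofReal_mul (by positivity)]
    refine ENNReal.ofReal_le_ofReal ?_
    have := (hγ v hv).1
    gcongr
  -- the lower bound
  have hlow : ENNReal.ofReal (M ^ s * (κ / 3) ^ s / 2) * ∫⁻ v, w s β v ∂μ ≤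
      ∫⁻ v, ww s p q β v ∂μ := by
    have h1 : ∫⁻ v in G, w s β v ∂μ ≤ ENNReal.ofReal (1 / 2) * ∫⁻ v, w s β v ∂μ := by
      refine le_trans (lintegral_mono_set ?_) (hκ μ hμ hμD γ β hβ)
      intro v hv
      have hv' : |v - γ| < κ := hv
      exact lt_of_lt_of_le hv' (min_le_left _ _)
    have hGtop : ∫⁻ v in G, w s β v ∂μ ≠ ∞ :=
      ne_top_of_le_ne_top htop (setLIntegral_le_lintegral _ _)
    have hadd := lintegral_add_compl (w s β) hGm (μ := μ)
    have h2 : ENNReal.ofReal (1 / 2) * ∫⁻ v, w s β v ∂μ ≤ ∫⁻ v in Gᶜ, w s β v ∂μ := by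
      have h3 : ENNReal.ofReal (1 / 2) * (∫⁻ v, w s β v ∂μ) +
          ENNReal.ofReal (1 / 2) * (∫⁻ v, w s β v ∂μ) = ∫⁻ v, w s β v ∂μ := by
        rw [← add_mul, ← ENNReal.ofReal_add (by norm_num) (by norm_num)]
        norm_num
      have h4 : ENNReal.ofReal (1 / 2) * (∫⁻ v, w s β v ∂μ) +
          ENNReal.ofReal (1 / 2) * (∫⁻ v, w s β v ∂μ) ≤
          ENNReal.ofReal (1 / 2) * (∫⁻ v, w s β v ∂μ) + ∫⁻ v in Gᶜ, w s β v ∂μ := by
        rw [h3]
        calc ∫⁻ v, w s β v ∂μ = ∫⁻ v in G, w s β v ∂μ + ∫⁻ v in Gᶜ, w s β v ∂μ := hadd.symm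
          _ ≤ _ := by gcongr
      refine (ENNReal.add_le_add_iff_left ?_).1 h4
      exact ENNReal.mul_ne_top ENNReal.ofReal_ne_top htop
    have h5 : ENNReal.ofReal (M ^ s * (κ / 3) ^ s) * ∫⁻ v in Gᶜ, w s β v ∂μ ≤
        ∫⁻ v, ww s p q β v ∂μ := by
      rw [← lintegral_const_mul _ (w_meas s β)]
      refine le_trans ?_ (setLIntegral_le_lintegral Gᶜ _)
      refine setLIntegral_mono_ae ((ww_meas s p q β).aemeasurable) ?_
      filter_upwards [hμ] with v hv hvG
      have hvG' : κ ≤ |v - γ| := by simpa [hG] using hvG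
      have h6 : κ ≤ min 1 |v - γ| := le_min hκ1 hvG'
      have h7 : M * (κ / 3) ≤ ‖p + q * (v : ℂ)‖ := by
        refine le_trans ?_ (hγ v hv).2
        calc M * (κ / 3) = M / 3 * κ := by ring
          _ ≤ M / 3 * min 1 |v - γ| := mul_le_mul_of_nonneg_left h6 (by positivity)
      unfold ww w
      rw [← ENNReal.ofReal_mul (by positivity)]
      refine ENNReal.ofReal_le_ofReal ?_
      rw [← Real.mul_rpow hM0 (by positivity)]
      gcongr
    calc ENNReal.ofReal (M ^ s * (κ / 3) ^ s / 2) * ∫⁻ v, w s β v ∂μ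
        = ENNReal.ofReal (M ^ s * (κ / 3) ^ s) *
            (ENNReal.ofReal (1 / 2) * ∫⁻ v, w s β v ∂μ) := by
          rw [← mul_assoc, ← ENNReal.ofReal_mul (by positivity)]
          congr 2
          ring
      _ ≤ ENNReal.ofReal (M ^ s * (κ / 3) ^ s) * ∫⁻ v in Gᶜ, w s β v ∂μ := by gcongr
      _ ≤ _ := h5
  -- the part near `α` is small
  have hsm : 2 * ∫⁻ v in B, ww s p q β v ∂μ ≤ ∫⁻ v, ww s p q β v ∂μ := by
    refine le_trans ?_ hlow
    calc 2 * ∫⁻ v in B, ww s p q β v ∂μ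
        ≤ 2 * (ENNReal.ofReal (M ^ s) *
          (ENNReal.ofReal ((κ / 3) ^ s / 4) * ∫⁻ v, w s β v ∂μ)) := by
          gcongr
          refine (hup B).trans ?_
          gcongr
          exact hr μ hμ hμD α.re β hβ
      _ = ENNReal.ofReal (M ^ s * (κ / 3) ^ s / 2) * ∫⁻ v, w s β v ∂μ := by
          rw [show (2 : ℝ≥0∞) = ENNReal.ofReal 2 by simp, ← mul_assoc, ← mul_assoc,
            ← ENNReal.ofReal_mul (by norm_num), ← ENNReal.ofReal_mul (by positivity)]
          congr 2
          ring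
  -- conclusion
  have hwtop : ∫⁻ v, ww s p q β v ∂μ ≠ ∞ := by
    have h1 := hup univ
    rw [setLIntegral_univ, setLIntegral_univ] at h1
    exact ne_top_of_le_ne_top (ENNReal.mul_ne_top ENNReal.ofReal_ne_top htop) h1
  have hadd := lintegral_add_compl (ww s p q β) hBm (μ := μ)
  have hBtop : ∫⁻ v in B, ww s p q β v ∂μ ≠ ∞ :=
    ne_top_of_le_ne_top hwtop (setLIntegral_le_lintegral _ _)
  have h1 : ∫⁻ v in B, ww s p q β v ∂μ ≤ ∫⁻ v in Bᶜ, ww s p q β v ∂μ := by
    rw [← hadd, two_mul] at hsm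
    exact (ENNReal.add_le_add_iff_left hBtop).mp hsm
  have h2 : ∫⁻ v, ww s p q β v ∂μ ≤ 2 * ∫⁻ v in Bᶜ, ww s p q β v ∂μ := by
    rw [← hadd, two_mul]
    gcongr
  have h3 : ENNReal.ofReal (r ^ s) * ∫⁻ v in Bᶜ, ww s p q β v ∂μ ≤
      ∫⁻ v : ℝ, ENNReal.ofReal (‖(v : ℂ) - α‖ ^ s *
        (‖p + q * (v : ℂ)‖ ^ s * ‖(v : ℂ) - β‖ ^ (-s))) ∂μ := by
    rw [← lintegral_const_mul _ (ww_meas s p q β)]
    refine le_trans ?_ (setLIntegral_le_lintegral Bᶜ _)
    refine setLIntegral_mono' hBm.compl ?_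
    intro v hv
    have hv' : r ≤ |v - α.re| := by
      simpa [hB] using hv
    have hv2 : r ≤ ‖(v : ℂ) - α‖ := by
      refine hv'.trans ?_
      have := Complex.abs_re_le_norm ((v : ℂ) - α)
      simpa using this
    unfold ww
    rw [← ENNReal.ofReal_mul (by positivity)]
    refine ENNReal.ofReal_le_ofReal ?_
    gcongr
  calc ENNReal.ofReal (r ^ s / 2) * ∫⁻ v, ww s p q β v ∂μ
      ≤ ENNReal.ofReal (r ^ s / 2) * (2 * ∫⁻ v in Bᶜ, ww s p q β v ∂μ) := by gcongr
    _ = ENNReal.ofReal (r ^ s) * ∫⁻ v in Bᶜ, ww s p q β v ∂μ := by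
        rw [← mul_assoc]
        congr 1
        rw [show (2 : ℝ≥0∞) = ENNReal.ofReal 2 by simp, ← ENNReal.ofReal_mul (by positivity)]
        congr 1
        ring
    _ ≤ _ := h3

end Pool.Agent.H215.FL
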