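import Pool.Agent.H121.FL.Iface
import Pool.Agent.H215.FL.Dec2Core

/-! Decoupling inequality with a Moebius numerator (task FL-DEC2). -/

set_option autoImplicit false

namespace Pool.Agent.H215.FL

theorem dec2 : Pool.Agent.H121.FL.S_dec2 := fun s D hs hs1 hD => by
  obtain ⟨c, hc, h⟩ := dec2_core s D hs hs1 hD
  exact ⟨c, hc, fun μ _ hμ α β p q hβ => h μ hμ.1 hμ.2 α β p q hβ⟩

end Pool.Agent.H215.FL
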